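import Pool.Agent.Helper15.AF.Goals1

/-!
# Packet AF-SBB: the strings have small bias
-/

namespace Pool.Agent.Helper97.AF

open Pool.Agent.Helper51.ZP Pool.Agent.Helper78.DT Pool.Agent.Helper78.JT Pool.Agent.Helper15.AF
open scoped Classical

/-- extension of a vector by zero -/
def xt {k : ℕ} (v : Fin k → ZMod 2) (j : ℕ) : ZMod 2 := if h : j < k then v ⟨j, h⟩ else 0

theorem xt_lt {k : ℕ} (v : Fin k → ZMod 2) {j : ℕ} (h : j < k) : xt v j = v ⟨j, h⟩ := dif_pos h

theorem xt_add {k : ℕ} (v w : Fin k → ZMod 2) (j : ℕ) : xt (v + w) j = xt v j + xt w j := by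
  unfold xt
  split_ifs <;> simp

theorem xt_smul {k : ℕ} (a : ZMod 2) (v : Fin k → ZMod 2) (j : ℕ) :
    xt (a • v) j = a * xt v j := by
  unfold xt
  split_ifs <;> simp

/-- the list of a vector -/
def enc {k : ℕ} (v : Fin k → ZMod 2) : List Bool := (List.range k).map fun j => z2b (xt v j)

theorem enc_inj {k : ℕ} {v w : Fin k → ZMod 2} (h : enc v = enc w) : v = w := by
  funext i
  have h1 : (enc v)[(i : ℕ)]? = (enc w)[(i : ℕ)]? := by rw [h]
  simp only [enc, List.getElem?_map] at h1
  rw [List.getElem?_range i.2] at h1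
  simp only [Option.map_some, Option.some.injEq] at h1
  rw [xt_lt v i.2, xt_lt w i.2] at h1
  have h2 := congrArg b2z h1
  simpa using h2

/-- the transition map -/
def MM (k : ℕ) (C : ℕ → ZMod 2) : Module.End (ZMod 2) (Fin k → ZMod 2) where
  toFun v := fun i => if (i : ℕ) + 1 < k then xt v (i + 1) else ∑ j ∈ Finset.range k, C j * xt v j
  map_add' := by
    intro v w
    funext i
    simp only [Pi.add_apply]
    split_ifs
    · exact xt_add v w _
    · rw [← Finset.sum_add_distrib]
      apply Finset.sum_congr rfl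
      intro j _
      rw [xt_add, mul_add]
  map_smul' := by
    intro a v
    funext i
    simp only [Pi.smul_apply, RingHom.id_apply, smul_eq_mul]
    split_ifs
    · exact xt_smul a v _
    · rw [Finset.mul_sum]
      apply Finset.sum_congr rfl
      intro j _
      rw [xt_smul]
      ring

theorem MM_apply {k : ℕ} (C : ℕ → ZMod 2) (v : Fin k → ZMod 2) (i : Fin k) :
    MM k C v i = if (i : ℕ) + 1 < k then xt v (i + 1) else
      ∑ j ∈ Finset.range k, C j * xt v j := rfl

theorem stp_enc {k : ℕ} (hk : 1 ≤ k) (C : ℕ → ZMod 2) (v : Fin k → ZMod 2) :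
    stp ((List.range k).map fun j => z2b (C j)) (enc v) = enc (MM k C v) := by
  rw [Pool.Agent.Helper51.ZP.stp, enc, par_dot C (xt v)]
  apply List.ext_getElem
  · simp [enc]
    omega
  · intro n h1 h2
    simp only [enc, List.length_map, List.length_range] at h2
    rw [List.getElem_append]
    split_ifs with h3
    · simp only [List.length_tail, List.length_map, List.length_range] at h3
      simp only [List.getElem_tail, List.getElem_map, List.getElem_range, enc]
      rw [xt_lt _ h2, MM_apply, if_pos (by simp only; omega)]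
    · simp only [List.length_tail, List.length_map, List.length_range] at h3
      simp only [List.getElem_singleton, List.getElem_map, List.getElem_range, enc]
      rw [xt_lt _ h2, MM_apply, if_neg (by simp only; omega)]

theorem iter_enc {k : ℕ} (hk : 1 ≤ k) (C : ℕ → ZMod 2) (v : Fin k → ZMod 2) (i : ℕ) :
    (stp ((List.range k).map fun j => z2b (C j)))^[i] (enc v) = enc ((MM k C ^ i) v) := by
  induction i with
  | zero => simp
  | succ i ih =>
    rw [Function.iterate_succ_apply', ih, stp_enc hk, pow_succ', Module.End.mul_apply]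

/-- the first vector -/
def sv (k : ℕ) : Fin k → ZMod 2 := fun i => if (i : ℕ) = 0 then 1 else 0

theorem enc_sv (k : ℕ) : enc (sv k) = s0 k := by
  unfold enc s0
  apply List.map_congr_left
  intro j hj
  rw [List.mem_range] at hj
  rw [xt_lt _ hj, sv]
  by_cases h : j = 0
  · simp [h, z2b]
  · simp [h, z2b]

theorem head_enc {k : ℕ} (hk : 1 ≤ k) (v : Fin k → ZMod 2) :
    b2z ((enc v).headD false) = v ⟨0, hk⟩ := by
  obtain ⟨m, rfl⟩ : ∃ m, k = m + 1 := ⟨k - 1, by omega⟩
  rw [enc, List.range_succ_eq_map]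
  simp only [List.map_cons, List.headD_cons, b2z_z2b]
  exact xt_lt v hk

section lin

set_option linter.unusedSectionVars false

variable {V : Type} [AddCommGroup V] [Module (ZMod 2) V] [Fintype V]
variable {M : Module.End (ZMod 2) V} {s : V} {Q : ℕ}

/-- the orbit map -/
theorem orb_inj (hs : (M ^ Q) s = s) (hne : ∀ i, 0 < i → i < Q → (M ^ i) s ≠ s)
    {i j : ℕ} (hi : i < Q) (hj : j < Q) (h : (M ^ i) s = (M ^ j) s) : i = j := by
  have key : ∀ i j : ℕ, i < j → j < Q → (M ^ i) s = (M ^ j) s → False := by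
    intro i j hij hj h
    apply hne (i + (Q - j)) (by omega) (by omega)
    rw [add_comm, pow_add, Module.End.mul_apply, h, ← Module.End.mul_apply, ← pow_add,
      show Q - j + j = Q by omega, hs]
  rcases lt_trichotomy i j with h1 | h1 | h1
  · exact (key i j h1 hj h).elim
  · exact h1
  · exact (key j i h1 hi h.symm).elim

theorem orb_ne (hs0 : s ≠ 0) (hs : (M ^ Q) s = s) {i : ℕ} (hi : i < Q) : (M ^ i) s ≠ 0 := by
  intro h
  apply hs0
  rw [← hs, show Q = (Q - i) + i by omega, pow_add, Module.End.mul_apply, h, map_zero]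

theorem orb_surj (hQ : Fintype.card V = Q + 1) (hs0 : s ≠ 0) (hs : (M ^ Q) s = s)
    (hne : ∀ i, 0 < i → i < Q → (M ^ i) s ≠ s) {v : V} (hv : v ≠ 0) :
    ∃ i < Q, v = (M ^ i) s := by
  classical
  let f : Fin Q → {v : V // v ≠ 0} := fun i => ⟨(M ^ (i : ℕ)) s, orb_ne hs0 hs i.2⟩
  have hf : Function.Injective f := by
    intro i j h
    have h1 := congrArg Subtype.val h
    exact Fin.ext (orb_inj hs hne i.2 j.2 h1)
  have hc : Fintype.card (Fin Q) = Fintype.card {v : V // v ≠ 0} := by
    rw [Fintype.card_subtype_compl, Fintype.card_fin, hQ]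
    simp
  have hb : Function.Bijective f := (Fintype.bijective_iff_injective_and_card f).2 ⟨hf, hc⟩
  obtain ⟨i, hi⟩ := hb.2 ⟨v, hv⟩
  exact ⟨i, i.2, (congrArg Subtype.val hi).symm⟩

theorem pow_Q (hQ : Fintype.card V = Q + 1) (hs0 : s ≠ 0) (hs : (M ^ Q) s = s)
    (hne : ∀ i, 0 < i → i < Q → (M ^ i) s ≠ s) : M ^ Q = 1 := by
  apply LinearMap.ext
  intro v
  by_cases hv : v = 0
  · rw [hv, map_zero, map_zero]
  · obtain ⟨i, _, rfl⟩ := orb_surj hQ hs0 hs hne hv
    rw [← Module.End.mul_apply, ← pow_add, add_comm, pow_add, Module.End.mul_apply, hs]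
    rfl

/-- a nonzero endomorphism which commutes with `M` is injective -/
theorem inj_of_comm (hQ : Fintype.card V = Q + 1) (hs0 : s ≠ 0) (hs : (M ^ Q) s = s)
    (hne : ∀ i, 0 < i → i < Q → (M ^ i) s ≠ s) {N : Module.End (ZMod 2) V} (hN : N ≠ 0)
    (hc : Commute N M) {v : V} (hv : N v = 0) : v = 0 := by
  by_contra hv0
  apply hN
  obtain ⟨i, hi, hvi⟩ := orb_surj hQ hs0 hs hne hv0
  have hpow : ∀ j : ℕ, N ((M ^ j) v) = 0 := by
    intro j
    rw [← Module.End.mul_apply, (hc.pow_right j).eq, Module.End.mul_apply, hv, map_zero]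
  apply LinearMap.ext
  intro w
  rw [LinearMap.zero_apply]
  by_cases hw : w = 0
  · rw [hw, map_zero]
  · obtain ⟨l, hl, hwl⟩ := orb_surj hQ hs0 hs hne hw
    have h1 : w = (M ^ (l + (Q - i))) v := by
      rw [hvi, ← Module.End.mul_apply, ← pow_add, show l + (Q - i) + i = l + Q by omega, pow_add,
        Module.End.mul_apply, hs, ← hwl]
    rw [h1]
    exact hpow _

theorem comm_aeval (p : Polynomial (ZMod 2)) : Commute (Polynomial.aeval M p) M := by
  have h : Commute p Polynomial.X := Commute.all _ _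
  have h1 := h.map (Polynomial.aeval M)
  simpa using h1

/-- at most `T` of the powers of `M` are roots -/
theorem card_roots (hQ : Fintype.card V = Q + 1) (hs0 : s ≠ 0) (hs : (M ^ Q) s = s)
    (hne : ∀ i, 0 < i → i < Q → (M ^ i) s ≠ s) {T : ℕ} {e : Fin T → ZMod 2} (he : e ≠ 0) :
    (Finset.univ.filter fun α : Fin Q =>
      Polynomial.aeval M (∑ j : Fin T, Polynomial.C (e j) * Polynomial.X ^ ((α : ℕ) * j)) = 0).card
      ≤ T := by
  classical
  let I : Ideal (Polynomial (ZMod 2)) := RingHom.ker (Polynomial.aeval M : Polynomial (ZMod 2) →ₐ[ZMod 2] Module.End (ZMod 2) V)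
  have hmem : ∀ p, p ∈ I ↔ Polynomial.aeval M p = 0 := fun p => Iff.rfl
  have hfin : Finite V := inferInstance
  have hI : I.IsPrime := by
    constructor
    · intro h
      rw [Ideal.eq_top_iff_one, hmem, map_one] at h
      apply hs0
      have := LinearMap.congr_fun h s
      simpa using this
    · intro p q hpq
      rw [hmem, map_mul] at hpq
      rw [hmem, hmem]
      by_contra hc
      push Not at hc
      have hq : Function.Injective (Polynomial.aeval M q) := by
        rw [injective_iff_map_eq_zero]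
        intro v hv
        exact inj_of_comm hQ hs0 hs hne hc.2 (comm_aeval q) hv
      have hq2 : Function.Surjective (Polynomial.aeval M q) := Finite.surjective_of_injective hq
      apply hc.1
      apply LinearMap.ext
      intro v
      obtain ⟨w, rfl⟩ := hq2 v
      have := LinearMap.congr_fun hpq w
      rwa [Module.End.mul_apply] at this
  let A := Polynomial (ZMod 2) ⧸ I
  have : IsDomain A := Ideal.Quotient.isDomain I
  let P : Polynomial A := ∑ j : Fin T, Polynomial.C (algebraMap (ZMod 2) A (e j)) * Polynomial.X ^ (j : ℕ)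
  have hcoef : ∀ j : Fin T, P.coeff j = algebraMap (ZMod 2) A (e j) := by
    intro j
    simp only [P, Polynomial.finsetSum_coeff, Polynomial.coeff_C_mul, Polynomial.coeff_X_pow]
    rw [Finset.sum_eq_single j]
    · simp
    · intro i _ hij
      rw [if_neg (fun h => hij (Fin.ext h.symm)), mul_zero]
    · intro h
      exact absurd (Finset.mem_univ _) h
  have hP0 : P ≠ 0 := by
    intro h0
    apply he
    funext j
    have h1 := hcoef j
    rw [h0, Polynomial.coeff_zero] at h1
    have hinj : Function.Injective (algebraMap (ZMod 2) A) := (algebraMap (ZMod 2) A).injective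
    have h2 : algebraMap (ZMod 2) A (e j) = algebraMap (ZMod 2) A 0 := by rw [map_zero, h1]
    exact hinj h2
  have hT : 0 < T := by
    rcases Nat.eq_zero_or_pos T with h | h
    · subst h
      exact absurd (Subsingleton.elim e 0) he
    · exact h
  have hdeg : P.natDegree ≤ T := by
    apply Polynomial.natDegree_sum_le_of_forall_le
    intro j _
    exact (Polynomial.natDegree_C_mul_X_pow_le _ _).trans j.2.le
  let x : Fin Q → A := fun α => Ideal.Quotient.mk I (Polynomial.X ^ (α : ℕ))
  have hx : Function.Injective x := by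
    intro α β h
    have h1 : Polynomial.X ^ (α : ℕ) - Polynomial.X ^ (β : ℕ) ∈ I := Ideal.Quotient.eq.1 h
    rw [hmem, map_sub, map_pow, map_pow, Polynomial.aeval_X, sub_eq_zero] at h1
    exact Fin.ext (orb_inj hs hne α.2 β.2 (LinearMap.congr_fun h1 s))
  have hroot : ∀ α : Fin Q,
      Polynomial.aeval M (∑ j : Fin T, Polynomial.C (e j) * Polynomial.X ^ ((α : ℕ) * j)) = 0 →
      x α ∈ P.roots.toFinset := by
    intro α hα
    rw [Multiset.mem_toFinset, Polynomial.mem_roots hP0, Polynomial.IsRoot.def]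
    have h1 : Polynomial.eval (x α) P = Ideal.Quotient.mk I
        (∑ j : Fin T, Polynomial.C (e j) * Polynomial.X ^ ((α : ℕ) * j)) := by
      simp only [P, x, Polynomial.eval_finsetSum, Polynomial.eval_mul, Polynomial.eval_C,
        Polynomial.eval_pow, Polynomial.eval_X, map_sum, map_mul, map_pow]
      apply Finset.sum_congr rfl
      intro j _
      rw [← pow_mul]
      rfl
    rw [h1, Ideal.Quotient.eq_zero_iff_mem, hmem]
    exact hα
  calc (Finset.univ.filter fun α : Fin Q =>
      Polynomial.aeval M (∑ j : Fin T, Polynomial.C (e j) * Polynomial.X ^ ((α : ℕ) * j)) = 0).card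
      = ((Finset.univ.filter fun α : Fin Q =>
      Polynomial.aeval M (∑ j : Fin T, Polynomial.C (e j) * Polynomial.X ^ ((α : ℕ) * j)) = 0).image
        x).card := (Finset.card_image_of_injective _ hx).symm
    _ ≤ P.roots.toFinset.card := by
        apply Finset.card_le_card
        intro a ha
        rw [Finset.mem_image] at ha
        obtain ⟨α, hα, rfl⟩ := ha
        rw [Finset.mem_filter] at hα
        exact hroot α hα.2
    _ ≤ Multiset.card P.roots := Multiset.toFinset_card_le _
    _ ≤ P.natDegree := Polynomial.card_roots' P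
    _ ≤ T := hdeg

/-- the orbit of a nonzero vector runs over all nonzero vectors -/
theorem sum_orb (hQ : Fintype.card V = Q + 1) (hs0 : s ≠ 0) (hs : (M ^ Q) s = s)
    (hne : ∀ i, 0 < i → i < Q → (M ^ i) s ≠ s) (f : V → ℝ) {w : V} (hw : w ≠ 0) :
    ∑ β : Fin Q, f ((M ^ (β : ℕ)) w) = ∑ v, f v - f 0 := by
  classical
  obtain ⟨i, hi, hwi⟩ := orb_surj hQ hs0 hs hne hw
  have hwQ : (M ^ Q) w = w := by rw [pow_Q hQ hs0 hs hne]; rfl
  have hnew : ∀ j, 0 < j → j < Q → (M ^ j) w ≠ w := by
    intro j hj hjQ h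
    apply hne j hj hjQ
    have h1 : s = (M ^ (Q - i)) w := by
      rw [hwi, ← Module.End.mul_apply, ← pow_add, show Q - i + i = Q by omega, hs]
    rw [h1, ← Module.End.mul_apply, ← pow_add, add_comm, pow_add, Module.End.mul_apply, h]
  let g : Fin Q → {v : V // v ≠ 0} := fun i => ⟨(M ^ (i : ℕ)) w, orb_ne hw hwQ i.2⟩
  have hg : Function.Injective g := by
    intro i j h
    have h1 := congrArg Subtype.val h
    exact Fin.ext (orb_inj hwQ hnew i.2 j.2 h1)
  have hc : Fintype.card (Fin Q) = Fintype.card {v : V // v ≠ 0} := by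
    rw [Fintype.card_subtype_compl, Fintype.card_fin, hQ]
    simp
  have hb : Function.Bijective g := (Fintype.bijective_iff_injective_and_card g).2 ⟨hg, hc⟩
  have h1 : ∑ β : Fin Q, f ((M ^ (β : ℕ)) w) = ∑ v : {v : V // v ≠ 0}, f v :=
    Function.Bijective.sum_comp hb (fun v : {v : V // v ≠ 0} => f v)
  have h2 : ∑ v : {v : V // v ≠ 0}, f v = ∑ v ∈ Finset.univ.filter (fun v : V => v ≠ 0), f v := by
    rw [← Finset.sum_subtype_eq_sum_filter]
    apply Finset.sum_congr _ fun _ _ => rfl
    ext v
    simp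
  rw [h1, h2, Finset.filter_ne', ← Finset.add_sum_erase Finset.univ f (Finset.mem_univ (0 : V))]
  ring

end lin

theorem sg_add_one (a : ZMod 2) : sg (a + 1) = - sg a := by
  rcases zmod2_cases a with h | h
  · subst h; simp [sg]
  · subst h
    rw [zmod2_self]
    simp [sg]

theorem abs_sg (a : ZMod 2) : |sg a| = 1 := by
  unfold sg
  split_ifs <;> simp

theorem sum_sg {k : ℕ} (hk : 1 ≤ k) : ∑ v : Fin k → ZMod 2, sg (v ⟨0, hk⟩) = 0 := by
  classical
  have h1 := Equiv.sum_comp (Equiv.addRight (Pi.single (⟨0, hk⟩ : Fin k) (1 : ZMod 2)))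
    (fun v : Fin k → ZMod 2 => sg (v ⟨0, hk⟩))
  simp only [Equiv.coe_addRight, Pi.add_apply, Pi.single_eq_same, sg_add_one,
    Finset.sum_neg_distrib] at h1
  linarith

/-- **SBB.** -/
theorem sbb : SbbStmt := by
  classical
  intro k c hk hlen hfull T e he
  set Q := Qk k with hQdef
  have hQ1 : 1 ≤ Q := by
    have : 2 ^ 1 ≤ 2 ^ k := Nat.pow_le_pow_right (by norm_num) hk
    simp only [hQdef, Qk]
    omega
  let C : ℕ → ZMod 2 := fun j => b2z (c.getD j false)
  have hc : c = (List.range k).map fun j => z2b (C j) := by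
    apply List.ext_getElem
    · simp [hlen]
    · intro n h1 h2
      simp [C, h1]
  let M := MM k C
  let s := sv k
  have hst : ∀ i, (stp c)^[i] (s0 k) = enc ((M ^ i) s) := by
    intro i
    rw [← iter_enc hk C s i, ← hc, enc_sv]
  have hcard : Fintype.card (Fin k → ZMod 2) = Q + 1 := by
    have : 0 < 2 ^ k := by positivity
    simp only [Fintype.card_fun, ZMod.card, Fintype.card_fin, hQdef, Qk]
    omega
  have hs0 : s ≠ 0 := by
    intro h
    have := congrFun h ⟨0, hk⟩
    simp [s, sv] at this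
  rw [full, Bool.and_eq_true, decide_eq_true_eq, List.all_eq_true] at hfull
  have hs : (M ^ Q) s = s := by
    apply enc_inj
    rw [← hst, hfull.1, enc_sv]
  have hne : ∀ i, 0 < i → i < Q → (M ^ i) s ≠ s := by
    intro i hi hiQ h
    have h1 := hfull.2 i (List.mem_range.2 hiQ)
    rw [decide_eq_true_eq] at h1
    rcases h1 with h1 | h1
    · omega
    · apply h1
      rw [hst, h, enc_sv]
  have hMQ := pow_Q hcard hs0 hs hne
  have hmod : ∀ x : ℕ, M ^ (x % Q) = M ^ x := by
    intro x
    conv_rhs => rw [← Nat.mod_add_div x Q, pow_add, pow_mul, hMQ, one_pow, mul_one]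
  -- the polynomial
  let q : Fin Q → Polynomial (ZMod 2) := fun α =>
    ∑ j : Fin T, Polynomial.C (e j) * Polynomial.X ^ ((α : ℕ) * j)
  have hval : ∀ α β : Fin Q, ∑ j : Fin T, e j * b2z (yc k c α β j) =
      ((M ^ (β : ℕ)) (Polynomial.aeval M (q α) s)) ⟨0, hk⟩ := by
    intro α β
    have h1 : ∀ j : Fin T, b2z (yc k c α β j) = ((M ^ (β : ℕ)) ((M ^ ((α : ℕ) * j)) s)) ⟨0, hk⟩ := by
      intro j
      rw [yc, ← hQdef, hst, head_enc hk, hmod, pow_add, Module.End.mul_apply]
    simp only [q, map_sum, map_mul, Polynomial.aeval_C, map_pow, Polynomial.aeval_X,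
      LinearMap.sum_apply, Module.End.mul_apply, Module.algebraMap_end_apply, map_smul,
      Finset.sum_apply, Pi.smul_apply, smul_eq_mul]
    apply Finset.sum_congr rfl
    intro j _
    rw [h1]
  have hinner : ∀ α : Fin Q, |∑ β : Fin Q, sg (∑ j : Fin T, e j * b2z (yc k c α β j))| ≤
      (if Polynomial.aeval M (q α) = 0 then (Q : ℝ) else 0) + 1 := by
    intro α
    by_cases h0 : Polynomial.aeval M (q α) = 0
    · rw [if_pos h0]
      refine (Finset.abs_sum_le_sum_abs _ _).trans ?_
      simp only [abs_sg, Finset.sum_const, Finset.card_univ, Fintype.card_fin, nsmul_eq_mul,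
        mul_one]
      linarith
    · rw [if_neg h0]
      have hw : Polynomial.aeval M (q α) s ≠ 0 := by
        intro h
        exact hs0 (inj_of_comm hcard hs0 hs hne h0 (comm_aeval _) h)
      have h1 := sum_orb hcard hs0 hs hne (fun v => sg (v ⟨0, hk⟩)) hw
      simp only [hval]
      rw [h1, sum_sg hk]
      simp [sg]
  have hcnt := card_roots hcard hs0 hs hne he
  have hsum : |∑ p : Fin Q × Fin Q, sg (∑ j : Fin T, e j * b2z (yc k c p.1 p.2 j))| ≤
      (T + 1) * Q := by
    rw [Fintype.sum_prod_type]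
    refine (Finset.abs_sum_le_sum_abs _ _).trans ?_
    refine (Finset.sum_le_sum fun α _ => hinner α).trans ?_
    rw [Finset.sum_add_distrib, ← Finset.sum_filter, Finset.sum_const, Finset.sum_const,
      nsmul_eq_mul, nsmul_eq_mul, Finset.card_univ, Fintype.card_fin]
    have h2 : ((Finset.univ.filter fun α : Fin Q => Polynomial.aeval M (q α) = 0).card : ℝ) ≤ T := by
      exact_mod_cast hcnt
    have h3 : (0 : ℝ) ≤ Q := by positivity
    nlinarith
  have hQpos : (0 : ℝ) < Q := by exact_mod_cast hQ1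
  rw [av, abs_div, Fintype.card_prod, Fintype.card_fin]
  push_cast
  rw [abs_of_pos (mul_pos hQpos hQpos), div_le_div_iff₀ (mul_pos hQpos hQpos) hQpos]
  calc |∑ p : Fin Q × Fin Q, sg (∑ j : Fin T, e j * b2z (yc k c p.1 p.2 j))| * (Q : ℝ)
      ≤ ((T + 1) * Q) * Q := mul_le_mul_of_nonneg_right hsum hQpos.le
    _ = (T + 1) * (Q * Q) := by ring

end Pool.Agent.Helper97.AF
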